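import Mathlib

set_option autoImplicit false

namespace Pool.Agent.Results.MP_9c76b4_al.No

open Topology

/-- Quasihomomorphisms between topological groups. -/
def IsQuasihom {G H : Type} [Group G] [Group H] [TopologicalSpace G] [TopologicalSpace H]
    (t : H → G) : Prop :=
  t 1 = 1 ∧ ContinuousAt (fun p : H × H => t p.1 * t p.2 * (t (p.1 * p.2))⁻¹) (1, 1) ∧
    ∀ y : H, ContinuousAt (fun h : H => t y * t h * (t y)⁻¹ * (t (y * h * y⁻¹))⁻¹) 1

theorem top_ex {G ι : Type} [CommGroup G] [Nonempty ι] (B : ι → Subgroup G)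
    (h : ∀ i j, ∃ k, B k ≤ B i ⊓ B j) : ∃ _ : TopologicalSpace G, IsTopologicalGroup G ∧
      (𝓝 (1 : G)).HasBasis (fun _ => True) fun i => (B i : Set G) := by
  let F : GroupFilterBasis G := groupFilterBasisOfComm (Set.range fun i => (B i : Set G))
    (Set.range_nonempty _)
    (by
      rintro _ _ ⟨i, rfl⟩ ⟨j, rfl⟩
      obtain ⟨k, hk⟩ := h i j
      exact ⟨_, ⟨k, rfl⟩, hk⟩)
    (by rintro _ ⟨i, rfl⟩; exact one_mem _)
    (by rintro _ ⟨i, rfl⟩; exact ⟨_, ⟨i, rfl⟩, by simp⟩)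
    (by rintro _ ⟨i, rfl⟩; exact ⟨_, ⟨i, rfl⟩, fun x hx => inv_mem hx⟩)
  refine ⟨F.topology, F.isTopologicalGroup, F.nhds_one_hasBasis.to_hasBasis ?_ ?_⟩
  · rintro _ ⟨i, rfl⟩
    exact ⟨i, trivial, le_rfl⟩
  · exact fun i _ => ⟨_, ⟨i, rfl⟩, le_rfl⟩

/-- Countable sets of reals. -/
abbrev I := {C : Set ℝ // C.Countable}

/-- Total sum. -/
noncomputable def σ (R : Type) [AddCommGroup R] : (ℝ →₀ R) →+ R :=
  Finsupp.liftAddHom fun _ => AddMonoidHom.id R

/-- Basic subgroups upstairs. -/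
def BG (i : I × ℕ) : Subgroup (Multiplicative (ℝ →₀ ℤ)) where
  carrier := {g | (∀ x ∈ i.1.1, g.toAdd x = 0) ∧ 3 ^ i.2 ∣ σ ℤ g.toAdd}
  one_mem' := ⟨fun _ _ => rfl, by simp⟩
  mul_mem' := fun hg hh => ⟨fun x hx => by simp [hg.1 x hx, hh.1 x hx],
    by simpa using hg.2.add hh.2⟩
  inv_mem' := fun hg => ⟨fun x hx => by simp [hg.1 x hx], by simpa using hg.2⟩

/-- Basic subgroups downstairs. -/
def BH (i : I) : Subgroup (Multiplicative (ℝ →₀ ZMod 2)) where
  carrier := {g | ∀ x ∈ i.1, g.toAdd x = 0}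
  one_mem' := fun _ _ => rfl
  mul_mem' := fun hg hh x hx => by simp [hg x hx, hh x hx]
  inv_mem' := fun hg x hx => by simp [hg x hx]

/-- Reduction modulo two. -/
noncomputable def f : Multiplicative (ℝ →₀ ℤ) →* Multiplicative (ℝ →₀ ZMod 2) :=
  AddMonoidHom.toMultiplicative (Finsupp.mapRange.addMonoidHom (Int.castAddHom (ZMod 2)))

theorem f_apply (g : Multiplicative (ℝ →₀ ℤ)) (x : ℝ) : (f g).toAdd x = (g.toAdd x : ZMod 2) := rfl

theorem σ_f (g : ℝ →₀ ℤ) : σ (ZMod 2) (f (Multiplicative.ofAdd g)).toAdd = (σ ℤ g : ZMod 2) := by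
  induction g using Finsupp.induction_linear with
  | zero => simp
  | add a b ha hb => simp [ofAdd_add, ha, hb]
  | single x r => simp [f, σ]

theorem lift (i : I × ℕ) (h : Multiplicative (ℝ →₀ ZMod 2)) (hh : h ∈ BH i.1) :
    ∃ g ∈ BG i, f g = h := by
  refine ⟨Multiplicative.ofAdd ((3 ^ i.2 : ℤ) • h.toAdd.mapRange (fun r => (r.val : ℤ)) rfl),
    ⟨fun x hx => by simp [hh x hx], by simp⟩, ?_⟩
  apply Multiplicative.toAdd.injective
  ext x
  rw [f_apply]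
  simp [show (3 : ZMod 2) = 1 from rfl]

theorem result : ∃ (G H : Type) (_ : CommGroup G) (_ : CommGroup H) (_ : TopologicalSpace G)
    (_ : TopologicalSpace H), IsTopologicalGroup G ∧ IsTopologicalGroup H ∧ T2Space G ∧ T2Space H ∧
    ∃ f : G →* H, Continuous f ∧ IsOpenMap f ∧ Function.Surjective f ∧
      ¬ ∃ s : H → G, (∀ h, f (s h) = h) ∧ IsQuasihom s := by
  have : Nonempty I := ⟨⟨∅, Set.countable_empty⟩⟩
  obtain ⟨tG, hG, bG⟩ := top_ex BG fun i j => ⟨(⟨i.1.1 ∪ j.1.1, i.1.2.union j.1.2⟩, i.2 + j.2),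
    fun g hg => ⟨⟨fun x hx => hg.1 x (Or.inl hx), (pow_dvd_pow 3 (Nat.le_add_right _ _)).trans hg.2⟩,
      fun x hx => hg.1 x (Or.inr hx), (pow_dvd_pow 3 (Nat.le_add_left _ _)).trans hg.2⟩⟩
  obtain ⟨tH, hH, bH⟩ := top_ex BH fun i j => ⟨⟨i.1 ∪ j.1, i.2.union j.2⟩,
    fun g hg => ⟨fun x hx => hg x (Or.inl hx), fun x hx => hg x (Or.inr hx)⟩⟩
  refine ⟨_, _, inferInstance, inferInstance, tG, tH, hG, hH,
    IsTopologicalGroup.t2Space_of_one_sep fun g hg => ?_,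
    IsTopologicalGroup.t2Space_of_one_sep fun g hg => ?_, f, continuous_of_continuousAt_one f ?_,
    IsTopologicalGroup.isOpenMap_iff_nhds_one.mpr ?_, fun h => ?_, ?_⟩
  · obtain ⟨x, hx⟩ := Finsupp.ne_iff.mp (show g.toAdd ≠ 0 from hg)
    exact ⟨_, bG.mem_of_mem (i := (⟨{x}, Set.countable_singleton x⟩, 0)) trivial,
      fun h => hx (h.1 x (Set.mem_singleton x))⟩
  · obtain ⟨x, hx⟩ := Finsupp.ne_iff.mp (show g.toAdd ≠ 0 from hg)
    exact ⟨_, bH.mem_of_mem (i := ⟨{x}, Set.countable_singleton x⟩) trivial,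
      fun h => hx (h x (Set.mem_singleton x))⟩
  · rw [ContinuousAt, map_one, bG.tendsto_iff bH]
    exact fun i _ => ⟨(i, 0), trivial, fun g hg x hx => by rw [f_apply, hg.1 x hx, Int.cast_zero]⟩
  · rw [bH.le_basis_iff (bG.map f)]
    exact fun i _ => ⟨i.1, trivial, lift i⟩
  · obtain ⟨g, -, hg⟩ := lift (⟨∅, Set.countable_empty⟩, 0) h fun _ hx => hx.elim
    exact ⟨g, hg⟩
  · rintro ⟨s, h1, h2, h3, -⟩
    have h4 : ContinuousAt (fun h => s h * s h * (s (h * h))⁻¹) 1 :=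
      h3.comp_of_eq (f := fun h => (h, h)) (by fun_prop) rfl
    rw [ContinuousAt, mul_one, h2, inv_one, mul_one, mul_one, bH.tendsto_iff bG] at h4
    choose C _ hC using fun k : ℕ => h4 (⟨∅, Set.countable_empty⟩, k) trivial
    obtain ⟨x, hx⟩ : ∃ x, x ∉ ⋃ k, (C k).1 := by
      by_contra hc
      push Not at hc
      exact Cardinal.not_countable_real ((Set.countable_iUnion fun k => (C k).2).mono fun x _ => hc x)
    let h : Multiplicative (ℝ →₀ ZMod 2) := Multiplicative.ofAdd (Finsupp.single x 1)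
    have h5 : h * h = 1 := by
      rw [← ofAdd_add, ← Finsupp.single_add, show (1 + 1 : ZMod 2) = 0 from rfl, Finsupp.single_zero]
      rfl
    have h6 : ∀ k, 3 ^ k ∣ σ ℤ (s h).toAdd + σ ℤ (s h).toAdd := fun k => by
      have := (hC k h fun y hy => Finsupp.single_eq_of_ne fun e =>
        hx (Set.mem_iUnion.mpr ⟨k, e ▸ hy⟩)).2
      simpa [h5, h2] using this
    have h7 := Int.eq_zero_of_dvd_of_natAbs_lt_natAbs (h6 (σ ℤ (s h).toAdd + σ ℤ (s h).toAdd).natAbs)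
      (by simpa using Nat.lt_pow_self (by norm_num))
    have h8 := σ_f (s h).toAdd
    rw [ofAdd_toAdd, h1, show σ ℤ (s h).toAdd = 0 by omega] at h8
    simp [h, σ] at h8

end Pool.Agent.Results.MP_9c76b4_al.No
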